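import Pool.Agent.H122R2.N6.KK

/-! Checking a table of inner products row by row: the entries of a row are packed in one number. -/

set_option autoImplicit false
set_option maxRecDepth 100000

namespace Pool.Agent.TH354.FB
open Pool.Agent.H122R2.N6

/-- the numbers `f 0, ..., f (n-1)` packed in lanes of 96 binary digits -/
def lanes (n : ℕ) (f : ℕ → ℕ) : ℕ := nsum n fun j => Nat.shiftLeft (f j) (Nat.mul 96 j)

def sS (K : ℕ) (w : ℕ → ℕ) : ℕ := nsum K fun k => w k
def sL (K : ℕ) (w : ℕ → ℕ) (l : ℕ → ℕ → ℕ) (i : ℕ) : ℕ := nsum K fun k => Nat.mul (w k) (l i k)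

/-- row `i` of the table `q` is given by the vectors `l` with the weights `w`: for all `j`,
`∑ k, w k * l i k * l j k + BB * ∑ k, w k + O = q i j + B * (∑ k, w k * l i k + ∑ k, w k * l j k)` -/
def rowc (K : ℕ) (w : ℕ → ℕ) (l : ℕ → ℕ → ℕ) (q : ℕ → ℕ → ℕ) (B BB O i : ℕ) : Bool :=
  Nat.beq (Nat.add (nsum K fun k => Nat.mul (Nat.mul (w k) (l i k)) (lanes 64 fun j => l j k))
      (Nat.mul (Nat.add (Nat.mul BB (sS K w)) O) (lanes 64 fun _ => 1)))
    (Nat.add (lanes 64 fun j => q i j)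
      (Nat.mul B (Nat.add (Nat.mul (sL K w l i) (lanes 64 fun _ => 1)) (lanes 64 fun j => sL K w l j))))

/-- the small table is checked entry by entry -/
def g2c (K : ℕ) (w : ℕ → ℕ) (l : ℕ → ℕ → ℕ) (q2 : ℕ → ℕ → ℕ) (T i j : ℕ) : Bool :=
  Nat.beq (Nat.add (nsum K fun k => Nat.mul (w k) (Nat.mul (l i k) (l j k)))
      (Nat.add (Nat.mul 17179869184 (sS K w)) (Nat.add 4611686018427387904 (Nat.mul T (kk i j)))))
    (Nat.add (q2 i j) (Nat.mul 131072 (Nat.add (sL K w l i) (sL K w l j))))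

end Pool.Agent.TH354.FB
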